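import Mathlib

/-! # Systems of forms over algebraically closed fields -/

set_option autoImplicit false

namespace Pool.Agent.Helper13.TL

open MvPolynomial

universe u

/-- `StrongC K i`: every system of forms of degree `d ≥ 1` with more than
`(number of forms) * d ^ i` variables over the field `K` has a nontrivial zero (the strong `C_i`
property of Lang and Nagata). -/
def StrongC (K : Type u) [Field K] (i : ℕ) : Prop :=
  ∀ (ι σ : Type) [Fintype ι] [Fintype σ] (d : ℕ) (f : ι → MvPolynomial σ K), 1 ≤ d →
    (∀ j, (f j).IsHomogeneous d) → Fintype.card ι * d ^ i < Fintype.card σ →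
    ∃ x : σ → K, x ≠ 0 ∧ ∀ j, eval x (f j) = 0

variable {K : Type u} [Field K] {σ : Type}

/-- set the first `k` variables to zero -/
noncomputable def kill (e : σ → ℕ) (k : ℕ) : MvPolynomial σ K →ₐ[K] MvPolynomial σ K :=
  aeval (fun i => if e i < k then 0 else X i)

theorem kill_X (e : σ → ℕ) (k : ℕ) (i : σ) :
    kill (K := K) e k (X i) = if e i < k then 0 else X i := by
  unfold kill; rw [aeval_X]

theorem kill_kill (e : σ → ℕ) (k : ℕ) (p : MvPolynomial σ K) :
    kill e (k + 1) (kill e k p) = kill e (k + 1) p := by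
  have : (kill (K := K) e (k + 1)).comp (kill e k) = kill e (k + 1) := by
    ext i
    rw [AlgHom.comp_apply, kill_X, kill_X]
    split_ifs with h1 h2
    · rw [map_zero]
    · omega
    · rw [kill_X, if_pos (by omega)]
    · rw [kill_X, if_neg (by omega)]
  exact DFunLike.congr_fun this p

instance (e : σ → ℕ) (k : ℕ) : (RingHom.ker (kill (K := K) e k)).IsPrime :=
  RingHom.ker_isPrime _

theorem le_height [Finite σ] {n : ℕ} (e : σ ≃ Fin n) (k : ℕ) (hk : k ≤ n) :
    (k : ℕ∞) ≤ (RingHom.ker (kill (K := K) (fun i => (e i : ℕ)) k)).height := by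
  induction k with
  | zero => simp
  | succ k ih =>
    have h1 := ih (by omega)
    have hlt : RingHom.ker (kill (K := K) (fun i => (e i : ℕ)) k) <
        RingHom.ker (kill (K := K) (fun i => (e i : ℕ)) (k + 1)) := by
      refine lt_of_le_of_ne ?_ ?_
      · intro p hp
        rw [RingHom.mem_ker] at hp ⊢
        rw [← kill_kill, hp, map_zero]
      · intro h
        have h2 : (X (e.symm ⟨k, hk⟩) : MvPolynomial σ K) ∈
            RingHom.ker (kill (K := K) (fun i => (e i : ℕ)) (k + 1)) := by
          rw [RingHom.mem_ker, kill_X, if_pos (by simp)]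
        rw [← h, RingHom.mem_ker, kill_X, if_neg (by simp)] at h2
        exact X_ne_zero _ h2
    have h2 := Ideal.height_strict_mono_of_isPrime hlt
    push_cast
    exact (add_le_add_left h1 1).trans (Order.add_one_le_of_lt h2)

/-- the ideal of the origin -/
theorem card_le_height [Fintype σ] : (Fintype.card σ : ℕ∞) ≤
    (RingHom.ker (aeval (fun _ => 0) : MvPolynomial σ K →ₐ[K] K)).height := by
  classical
  let e := Fintype.equivFin σ
  refine (le_height (K := K) e _ le_rfl).trans (Ideal.height_mono ?_)
  intro p hp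
  rw [RingHom.mem_ker] at hp ⊢
  have h1 : (aeval (fun _ => 0) : MvPolynomial σ K →ₐ[K] K).comp
      (kill (fun i => (e i : ℕ)) (Fintype.card σ)) = aeval (fun _ => 0) := by
    ext i
    rw [AlgHom.comp_apply, kill_X, if_pos (e i).2, map_zero, aeval_X]
  rw [← h1, AlgHom.comp_apply, hp, map_zero]

theorem eval_zero_of_hom {f : MvPolynomial σ K} {d : ℕ} (hd : 1 ≤ d) (hf : f.IsHomogeneous d) :
    aeval (0 : σ → K) f = 0 := by
  have h1 : aeval (0 : σ → K) f = constantCoeff f := by
    rw [aeval_zero]; rfl
  rw [h1, constantCoeff_eq]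
  apply hf.coeff_eq_zero
  simp; omega

theorem strongC_zero [IsAlgClosed K] : StrongC K 0 := by
  intro ι σ _ _ d f hd hf hcard
  by_contra hcon
  push Not at hcon
  rw [pow_zero, mul_one] at hcard
  let I : Ideal (MvPolynomial σ K) := Ideal.span (Set.range f)
  let m : Ideal (MvPolynomial σ K) := RingHom.ker (aeval (fun _ => 0) : MvPolynomial σ K →ₐ[K] K)
  have hz : zeroLocus K I = {0} := by
    ext x
    rw [zeroLocus_span]
    constructor
    · intro hx
      by_contra hx0
      obtain ⟨j, hj⟩ := hcon x hx0
      exact hj (by simpa [coe_aeval_eq_eval] using hx (f j) ⟨j, rfl⟩)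
    · rintro rfl p ⟨j, rfl⟩
      exact eval_zero_of_hom hd (hf j)
  have hrad : I.radical = m := by
    rw [← vanishingIdeal_zeroLocus_eq_radical (K := K), hz]
    ext p
    rw [mem_vanishingIdeal_singleton_iff]
    rfl
  have hmp : m.IsPrime := RingHom.ker_isPrime _
  have hm : m ∈ I.minimalPrimes := by
    rw [← Ideal.radical_minimalPrimes, hrad, Ideal.minimalPrimes_eq_subsingleton_self]
    rfl
  have h1 := Ideal.height_le_card_of_mem_minimalPrimes_span (Set.finite_range f) hm
  have h2 : (Fintype.card σ : ℕ∞) ≤ m.height := card_le_height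
  have h3 : (Set.range f).ncard ≤ Fintype.card ι := by
    rw [← Set.image_univ]
    refine (Set.ncard_image_le Set.finite_univ).trans ?_
    rw [Set.ncard_univ, Nat.card_eq_fintype_card]
  have h4 : (Fintype.card σ : ℕ∞) ≤ (Fintype.card ι : ℕ∞) :=
    h2.trans (h1.trans (by exact_mod_cast h3))
  have h5 : Fintype.card σ ≤ Fintype.card ι := by exact_mod_cast h4
  omega

end Pool.Agent.Helper13.TL
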