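import Pool.Agent.Helper13.TL.Step

/-! # The theorem of Tsen, Lang and Nagata for rational function fields -/

set_option autoImplicit false

namespace Pool.Agent.Helper13.TL

open MvPolynomial

universe u v w

attribute [local instance] Polynomial.algebra in
theorem strongC_frac {R : Type u} [CommRing R] [IsDomain R] {K : Type v} [Field K] [Algebra R K]
    [IsFractionRing R K] {L : Type w} [Field L] [Algebra (Polynomial R) L]
    [IsFractionRing (Polynomial R) L] {i : ℕ} (h : StrongC K i) : StrongC L (i + 1) := by
  have hinj : Function.Injective ((algebraMap (Polynomial R) L).comp Polynomial.C) := by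
    rw [RingHom.coe_comp]
    exact (IsFractionRing.injective (Polynomial R) L).comp Polynomial.C_injective
  let ψ : K →+* L := IsFractionRing.lift hinj
  have hψ : ∀ r : R, ψ (algebraMap R K r) = algebraMap (Polynomial R) L (Polynomial.C r) :=
    fun r => IsFractionRing.lift_algebraMap hinj r
  let Ψ : Polynomial K →+* L := Polynomial.eval₂RingHom ψ (algebraMap (Polynomial R) L Polynomial.X)
  let _inst : Algebra (Polynomial K) L := Ψ.toAlgebra
  have : IsScalarTower (Polynomial R) (Polynomial K) L := by
    refine IsScalarTower.of_algebraMap_eq' ?_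
    show algebraMap (Polynomial R) L = Ψ.comp (Polynomial.mapRingHom (algebraMap R K))
    refine Polynomial.ringHom_ext (fun r => ?_) ?_
    · rw [RingHom.comp_apply, Polynomial.coe_mapRingHom, Polynomial.map_C]
      show _ = Polynomial.eval₂ ψ _ (Polynomial.C (algebraMap R K r))
      rw [Polynomial.eval₂_C, hψ]
    · rw [RingHom.comp_apply, Polynomial.coe_mapRingHom, Polynomial.map_X]
      show _ = Polynomial.eval₂ ψ _ Polynomial.X
      rw [Polynomial.eval₂_X]
  have : IsLocalization ((nonZeroDivisors R).map (Polynomial.C : R →+* Polynomial R))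
      (Polynomial K) := Polynomial.isLocalization _ _
  have : IsFractionRing (Polynomial K) L :=
    IsFractionRing.isFractionRing_of_isDomain_of_isLocalization
      ((nonZeroDivisors R).map (Polynomial.C : R →+* Polynomial R)) (Polynomial K) L
  exact strongC_succ h

theorem strongC_ratfunc (F : Type u) [Field F] [IsAlgClosed F] (m : ℕ) :
    StrongC (FractionRing (MvPolynomial (Fin m) F)) m := by
  induction m with
  | zero =>
    have hsurj : Function.Surjective (algebraMap F (FractionRing (MvPolynomial (Fin 0) F))) := by
      intro x
      obtain ⟨a, b, hb, rfl⟩ := IsFractionRing.div_surjective (A := MvPolynomial (Fin 0) F) x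
      obtain ⟨a, rfl⟩ := C_surjective (Fin 0) a
      obtain ⟨b, rfl⟩ := C_surjective (Fin 0) b
      refine ⟨a / b, ?_⟩
      rw [map_div₀]
      rfl
    have := IsAlgClosed.of_ringEquiv F (FractionRing (MvPolynomial (Fin 0) F))
      (RingEquiv.ofBijective _ ⟨(algebraMap F (FractionRing (MvPolynomial (Fin 0) F))).injective,
        hsurj⟩)
    exact strongC_zero
  | succ m ih =>
    let e : MvPolynomial (Fin (m + 1)) F ≃+* Polynomial (MvPolynomial (Fin m) F) :=
      (finSuccEquiv F m).toRingEquiv
    let L := FractionRing (MvPolynomial (Fin (m + 1)) F)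
    let _inst : Algebra (Polynomial (MvPolynomial (Fin m) F)) L :=
      ((algebraMap (MvPolynomial (Fin (m + 1)) F) L).comp e.symm.toRingHom).toAlgebra
    have : IsFractionRing (Polynomial (MvPolynomial (Fin m) F)) L := by
      have h1 := IsLocalization.isLocalization_of_base_ringEquiv
        (nonZeroDivisors (MvPolynomial (Fin (m + 1)) F)) L e
      have h2 : (nonZeroDivisors (MvPolynomial (Fin (m + 1)) F)).map e =
        nonZeroDivisors (Polynomial (MvPolynomial (Fin m) F)) :=
        MulEquivClass.map_nonZeroDivisors e
      rw [h2] at h1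
      exact h1
    exact strongC_frac (R := MvPolynomial (Fin m) F) (K := FractionRing (MvPolynomial (Fin m) F)) ih

end Pool.Agent.Helper13.TL
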