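import Pool.Agent.Helper13.TL.Alg

/-! # The induction step `K → K(X)` of the theorem of Tsen and Lang for systems -/

set_option autoImplicit false

namespace Pool.Agent.Helper13.TL

open MvPolynomial

universe u v

section

variable {K : Type u} [Field K] {τ : Type}

/-- all coefficients are forms of degree `k`, and the degree is at most `D` -/
def HD (k D : ℕ) (q : Polynomial (MvPolynomial τ K)) : Prop :=
  (∀ u, (q.coeff u).IsHomogeneous k) ∧ q.natDegree ≤ D

theorem HD.mul {k D k' D' : ℕ} {q q' : Polynomial (MvPolynomial τ K)} (h : HD k D q)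
    (h' : HD k' D' q') : HD (k + k') (D + D') (q * q') := by
  refine ⟨fun u => ?_, Polynomial.natDegree_mul_le.trans (by have := h.2; have := h'.2; omega)⟩
  rw [Polynomial.coeff_mul]
  exact IsHomogeneous.sum _ _ _ fun x _ => (h.1 x.1).mul (h'.1 x.2)

theorem HD.one : HD 0 0 (1 : Polynomial (MvPolynomial τ K)) := by
  refine ⟨fun u => ?_, by simp⟩
  rw [Polynomial.coeff_one]
  split_ifs
  · exact isHomogeneous_one _ _
  · exact isHomogeneous_zero _ _ _

theorem HD.pow {k D : ℕ} {q : Polynomial (MvPolynomial τ K)} (h : HD k D q) (n : ℕ) :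
    HD (n * k) (n * D) (q ^ n) := by
  induction n with
  | zero => simpa using HD.one
  | succ n ih =>
    rw [pow_succ, Nat.succ_mul, Nat.succ_mul]
    exact ih.mul h

theorem HD.prod {α : Type} (s : Finset α) (k D : α → ℕ) (q : α → Polynomial (MvPolynomial τ K))
    (h : ∀ a ∈ s, HD (k a) (D a) (q a)) :
    HD (∑ a ∈ s, k a) (∑ a ∈ s, D a) (∏ a ∈ s, q a) := by
  classical
  induction s using Finset.induction_on with
  | empty => simpa using HD.one
  | insert a s ha ih =>
    rw [Finset.sum_insert ha, Finset.sum_insert ha, Finset.prod_insert ha]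
    exact (h a (Finset.mem_insert_self _ _)).mul
      (ih fun b hb => h b (Finset.mem_insert_of_mem hb))

theorem HD.sum {α : Type} (s : Finset α) {k D : ℕ} (q : α → Polynomial (MvPolynomial τ K))
    (h : ∀ a ∈ s, HD k D (q a)) : HD k D (∑ a ∈ s, q a) := by
  refine ⟨fun u => ?_, Polynomial.natDegree_sum_le_of_forall_le _ _ fun a ha => (h a ha).2⟩
  rw [Polynomial.finsetSum_coeff]
  exact IsHomogeneous.sum _ _ _ fun a ha => (h a ha).1 u

end

variable {K : Type u} [Field K]

theorem core {i : ℕ} (h : StrongC K i) {ι σ : Type} [Fintype ι] [Fintype σ] {d : ℕ}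
    (g : ι → MvPolynomial σ (Polynomial K)) (hd : 1 ≤ d) (hg : ∀ j, (g j).IsHomogeneous d)
    (hc : Fintype.card ι * d ^ (i + 1) < Fintype.card σ) :
    ∃ x : σ → Polynomial K, x ≠ 0 ∧ ∀ j, eval x (g j) = 0 := by
  classical
  -- bound for the degrees of the coefficients
  obtain ⟨s, hs⟩ : ∃ s, ∀ j, ∀ m, ((g j).coeff m).natDegree ≤ s := by
    refine ⟨Finset.univ.sup fun j => (g j).support.sup fun m => ((g j).coeff m).natDegree,
      fun j m => ?_⟩
    by_cases hm : m ∈ (g j).support
    · exact (Finset.le_sup (f := fun m => ((g j).coeff m).natDegree) hm).trans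
        (Finset.le_sup (f := fun j => (g j).support.sup fun m => ((g j).coeff m).natDegree)
          (Finset.mem_univ j))
    · rw [notMem_support_iff.1 hm]; simp
  let e := Fintype.card ι * (s + 1) * d ^ i
  let P := MvPolynomial (σ × Fin (e + 1)) K
  let Xl : σ → Polynomial P := fun l =>
    ∑ t : Fin (e + 1), Polynomial.C (X (l, t)) * Polynomial.X ^ (t : ℕ)
  let φ : Polynomial K →+* Polynomial P := Polynomial.mapRingHom C
  let G : ι → Polynomial P := fun j => eval₂ φ Xl (g j)
  have hXl : ∀ l, HD 1 e (Xl l) := by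
    intro l
    refine HD.sum _ _ fun t _ => ⟨fun u => ?_, ?_⟩
    · rw [Polynomial.coeff_C_mul, Polynomial.coeff_X_pow]
      split_ifs
      · rw [mul_one]; exact isHomogeneous_X _ _
      · rw [mul_zero]; exact isHomogeneous_zero _ _ _
    · refine (Polynomial.natDegree_C_mul_X_pow_le _ _).trans ?_
      have := t.2
      omega
  have hG : ∀ j, HD d (d * e + s) (G j) := by
    intro j
    show HD d (d * e + s) (eval₂ φ Xl (g j))
    rw [eval₂_eq]
    refine HD.sum _ _ fun m hm => ?_
    have hdeg : ∑ l ∈ m.support, m l = d := by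
      have := hg j (mem_support_iff.1 hm)
      rw [← this]
      simp [Finsupp.weight_apply, Finsupp.sum]
    have h1 : HD 0 s (φ ((g j).coeff m)) := by
      refine ⟨fun u => ?_, ?_⟩
      · show ((Polynomial.map C ((g j).coeff m)).coeff u).IsHomogeneous 0
        rw [Polynomial.coeff_map]
        exact isHomogeneous_C _ _
      · exact (Polynomial.natDegree_map_le).trans (hs j m)
    have h2 : HD (∑ l ∈ m.support, m l * 1) (∑ l ∈ m.support, m l * e)
        (∏ l ∈ m.support, Xl l ^ m l) := HD.prod _ _ _ _ fun l _ => (hXl l).pow (m l)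
    have h3 := h1.mul h2
    simp only [mul_one] at h3
    rw [← Finset.sum_mul, hdeg] at h3
    rw [zero_add] at h3
    exact ⟨h3.1, h3.2.trans (by omega)⟩
  have hcard : Fintype.card (ι × Fin (d * e + s + 1)) * d ^ i <
      Fintype.card (σ × Fin (e + 1)) := by
    rw [Fintype.card_prod, Fintype.card_prod, Fintype.card_fin, Fintype.card_fin]
    have h1 : Fintype.card ι * (d * e + s + 1) * d ^ i =
        Fintype.card ι * d ^ (i + 1) * e + e := by
      simp only [e]; ring
    rw [h1]
    have h2 : Fintype.card ι * d ^ (i + 1) + 1 ≤ Fintype.card σ := hc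
    calc Fintype.card ι * d ^ (i + 1) * e + e = (Fintype.card ι * d ^ (i + 1) + 1) * e := by ring
      _ < (Fintype.card ι * d ^ (i + 1) + 1) * (e + 1) := by
          exact Nat.mul_lt_mul_of_pos_left (Nat.lt_succ_self e) (Nat.succ_pos _)
      _ ≤ Fintype.card σ * (e + 1) := Nat.mul_le_mul_right _ h2
  obtain ⟨y, hy, hy0⟩ := h (ι × Fin (d * e + s + 1)) (σ × Fin (e + 1)) d
    (fun q => (G q.1).coeff q.2) hd (fun q => (hG q.1).1 _) hcard
  let x : σ → Polynomial K := fun l =>
    ∑ t : Fin (e + 1), Polynomial.C (y (l, t)) * Polynomial.X ^ (t : ℕ)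
  have hmap : ∀ j, Polynomial.map (eval y) (G j) = eval x (g j) := by
    intro j
    have h1 : Polynomial.mapRingHom (eval y) (eval₂ φ Xl (g j)) =
        eval₂ ((Polynomial.mapRingHom (eval y)).comp φ)
          (fun l => Polynomial.mapRingHom (eval y) (Xl l)) (g j) := by
      rw [hom_eval₂]
    have h2 : (Polynomial.mapRingHom (eval y)).comp φ = RingHom.id _ := by
      ext a <;> simp [φ]
    have h3 : (fun l => Polynomial.mapRingHom (eval y) (Xl l)) = x := by
      funext l
      simp [Xl, x]
    rw [h2, h3] at h1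
    exact h1
  refine ⟨x, fun hx => hy ?_, fun j => ?_⟩
  · funext q
    have h1 := congrArg (fun p : Polynomial K => p.coeff (q.2 : ℕ)) (congrFun hx q.1)
    simp only [x, Polynomial.finsetSum_coeff, Polynomial.coeff_C_mul, Polynomial.coeff_X_pow,
      Pi.zero_apply, Polynomial.coeff_zero] at h1
    rw [Finset.sum_eq_single q.2] at h1
    · simpa using h1
    · intro t _ ht
      rw [if_neg, mul_zero]
      intro h2
      exact ht (Fin.ext h2.symm)
    · simp
  · rw [← hmap j]
    ext u
    rw [Polynomial.coeff_map, Polynomial.coeff_zero]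
    by_cases hu : u < d * e + s + 1
    · exact hy0 (j, ⟨u, hu⟩)
    · rw [Polynomial.coeff_eq_zero_of_natDegree_lt, map_zero]
      have := (hG j).2
      omega

attribute [local instance] MvPolynomial.algebraMvPolynomial in
theorem strongC_succ {L : Type v} [Field L] [Algebra (Polynomial K) L]
    [IsFractionRing (Polynomial K) L] {i : ℕ} (h : StrongC K i) : StrongC L (i + 1) := by
  intro ι σ _ _ d f hd hf hc
  obtain ⟨b, hb⟩ := IsLocalization.exist_integer_multiples_of_finite
    ((nonZeroDivisors (Polynomial K)).map (C : Polynomial K →+* MvPolynomial σ (Polynomial K)))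
    f
  choose g hg using hb
  obtain ⟨b, b0, hb0, hbb⟩ := b
  subst hbb
  have hinj : Function.Injective (algebraMap (Polynomial K) L) := IsFractionRing.injective _ _
  have hg' : ∀ j, map (algebraMap (Polynomial K) L) (g j) = C (algebraMap _ L b0) * f j := by
    intro j
    have h1 := hg j
    have h2 : algebraMap (MvPolynomial σ (Polynomial K)) (MvPolynomial σ L) (g j) =
      map (algebraMap (Polynomial K) L) (g j) := rfl
    rw [← h2, h1, Algebra.smul_def]
    congr 1
    show map (algebraMap (Polynomial K) L) (C b0) = _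
    rw [map_C]
  have hb0' : algebraMap (Polynomial K) L b0 ≠ 0 := by
    intro h0
    exact nonZeroDivisors.ne_zero hb0 (hinj (by rw [h0, map_zero]))
  have hgh : ∀ j, (g j).IsHomogeneous d := by
    intro j m hm
    refine hf j (d := m) ?_
    intro h0
    apply hm
    apply hinj
    rw [map_zero, ← coeff_map, hg' j, coeff_C_mul, h0, mul_zero]
  obtain ⟨x, hx, hx0⟩ := core h g hd hgh hc
  refine ⟨fun l => algebraMap _ L (x l), fun h0 => hx ?_, fun j => ?_⟩
  · funext l
    exact hinj (by rw [congrFun h0 l]; simp)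
  · have h1 : eval (fun l => algebraMap _ L (x l)) (map (algebraMap (Polynomial K) L) (g j)) = 0 := by
      rw [eval_map]
      have h2 := eval₂_comp_left (algebraMap (Polynomial K) L) (RingHom.id _) x (g j)
      have h3 : eval₂ (RingHom.id _) x (g j) = 0 := hx0 j
      rw [h3, map_zero, RingHomCompTriple.comp_eq] at h2
      exact h2.symm
    rw [hg' j, map_mul, eval_C] at h1
    exact (mul_eq_zero.1 h1).resolve_left hb0'

end Pool.Agent.Helper13.TL
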